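import Pool.Agent.helper74.VDI.SpecF
import Pool.Agent.helper39.VD.POD

/-!
# MP_07c750_an, project INF: row PODF (the class of metrics for families)
-/

set_option autoImplicit false

open scoped ContDiff Topology InnerProductSpace ENNReal ComplexConjugate
open MeasureTheory Filter Set

namespace Pool.Agent.VDI

open Pool.Agent.RPQ (PN PJ UN upd)
open Pool.Agent.VQ (CH rk)
open Pool.Agent.VN (aN)
open Pool.Agent.VD
open Pool.Agent.VDE (UWLD FDX)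

theorem PODF_proof (hPOD : VD.POD_stmt) (hCFC : VD.CFC_stmt) (hFBL : FBL_stmt) : PODF_stmt := by
  intro d Γ _ _ K m Gs b S hK hG
  obtain ⟨-, hC2⟩ := hCFC d
  obtain ⟨b', hb1, hb2, hb3, -⟩ := hFBL d m Gs S hG.smooth hG.met
  have hCon : ∀ m' n : ℕ, ∃ C : ℝ, 1 ≤ C ∧ ∀ (s : V m) (f : V d → ℝ) (x : V d), ‖s‖ ≤ S → ‖x‖ ≤ m' → ContDiff ℝ ∞ f →
      (∀ i, ‖iteratedFDeriv ℝ i f x‖ ≤ b m' i) → ‖iteratedFDeriv ℝ n (cfm f (Gs s)) x‖ ≤ C := by
    intro m' n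
    obtain ⟨M1, hM1⟩ := POD_bb (b' m') n
    obtain ⟨M2, hM2⟩ := POD_bb (b m') n
    obtain ⟨C, hC, hC'⟩ := hC2 n (max 1 (max M1 M2)) (le_max_left _ _)
    refine ⟨C, hC, ?_⟩
    intro s f x hs hx hf hfb
    have e1 : M1 ≤ max 1 (max M1 M2) := (le_max_left _ _).trans (le_max_right _ _)
    have e2 : M2 ≤ max 1 (max M1 M2) := (le_max_right _ _).trans (le_max_right _ _)
    refine (hC' f f (Gs s) x 0 hf hf (hG.met s) le_rfl zero_le_one ?_).1
    intro i hi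
    exact ⟨((hfb i).trans (hM2 i hi)).trans e2, ((hfb i).trans (hM2 i hi)).trans e2,
      ((hb2 m' i s x hs hx).trans (hM1 i hi)).trans e1⟩
  choose CC hCC1 hCC using hCon
  obtain ⟨B, hB⟩ : ∃ B : ℕ → ℕ → ℝ, ∀ m' n, B m' n = max (CC m' n) (Real.exp (b m' 0) * b' m' 0) := ⟨_, fun _ _ => rfl⟩
  refine ⟨B, ?_⟩
  intro s hs f hf hfi hfb hneg
  have hdeck : Deck Γ (Gs s) := ⟨hK.smooth, hG.iso s, hK.free, hK.proper, ⟨K, hK.compact, hK.cover⟩⟩
  obtain ⟨Bs, hBs⟩ := hPOD d Γ K (Gs s) b hK hdeck (hG.met s)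
  obtain ⟨q, σ, hq, hσ, hcl⟩ := hBs f hf hfi hfb hneg
  refine ⟨q, σ, hq, hσ, ?_⟩
  intro f' hf' hf'i hf'b hclose
  have hc := hcl f' hf' hf'i hf'b hclose
  refine ⟨hc.met, hc.isom, hc.kpos, ?_, ?_, hc.neg⟩
  · intro n x u hx
    have h1 := hb3 n s x u hs hx
    have h2 := hf'b n 0 x hx
    rw [norm_iteratedFDeriv_zero, Real.norm_eq_abs] at h2
    have h3 : 1 ≤ Real.exp (b n 0) * Real.exp (f' x) := by
      rw [← Real.exp_add]
      exact Real.one_le_exp (by have := (abs_le.1 h2).1; linarith)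
    have h4 : 0 ≤ b' n 0 := le_trans zero_le_one (hb1 n 0)
    have h5 : 0 ≤ ⟪Gs s x u, u⟫_ℝ := by
      by_cases hu : u = 0
      · rw [hu]; simp
      · exact ((hG.met s).pos x u hu).le
    have h6 : 0 ≤ ⟪cfm f' (Gs s) x u, u⟫_ℝ := by rw [POD_cfm]; positivity
    have h7 : Real.exp (b n 0) * b' n 0 ≤ B n 0 := by rw [hB]; exact le_max_right _ _
    refine le_trans ?_ (mul_le_mul_of_nonneg_right h7 h6)
    rw [POD_cfm]
    calc ‖u‖ ^ 2 ≤ 1 * (b' n 0 * ⟪Gs s x u, u⟫_ℝ) := by rw [one_mul]; exact h1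
      _ ≤ (Real.exp (b n 0) * Real.exp (f' x)) * (b' n 0 * ⟪Gs s x u, u⟫_ℝ) :=
        mul_le_mul_of_nonneg_right h3 (mul_nonneg h4 h5)
      _ = _ := by ring
  · intro n i x hx
    refine (hCC n i s f' x hs hx hf' (fun j => hf'b n j x hx)).trans ?_
    rw [hB]; exact le_max_left _ _

end Pool.Agent.VDI
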